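import Pool.Agent.Results.MP_a57f84_gt.NotOpenCompactImage

/-!
Open images of paracompact spaces with Lindelöf fibres.

The metacompact space `Pt` of the starting file is not the image of any normal para-Lindelöf space
under an open continuous map for which the fibres over the isolated points of `Pt` are Lindelöf,
and it is not the image of any normal metalindelöf space under an open continuous map for which
the fibres over the isolated points are separable.
-/

set_option autoImplicit false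

namespace Pool.Agent.Results.MP_a57f84_gt.LindelofFibres

open Set Topology Filter

open Pool.Agent.Results.MP_a57f84_gt.NotOpenCompactImage

universe u

/-- A space is para-Lindelöf if every open cover has a locally countable open refinement. -/
def ParaLindelof (X : Type u) [TopologicalSpace X] : Prop :=
  ∀ U : Set (Set X), (∀ u ∈ U, IsOpen u) → ⋃₀ U = Set.univ →
    ∃ V : Set (Set X), (∀ v ∈ V, IsOpen v ∧ ∃ u ∈ U, v ⊆ u) ∧ ⋃₀ V = Set.univ ∧
      ∀ x : X, ∃ W ∈ 𝓝 x, {v | v ∈ V ∧ (v ∩ W).Nonempty}.Countable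

/-- A space is metalindelöf if every open cover has a point-countable open refinement. -/
def MetaLindelof (X : Type u) [TopologicalSpace X] : Prop :=
  ∀ U : Set (Set X), (∀ u ∈ U, IsOpen u) → ⋃₀ U = Set.univ →
    ∃ V : Set (Set X), (∀ v ∈ V, IsOpen v ∧ ∃ u ∈ U, v ⊆ u) ∧ ⋃₀ V = Set.univ ∧
      ∀ x : X, {v | v ∈ V ∧ x ∈ v}.Countable

/-- Every open cover of `X` has an open refinement such that every fibre over an isolated point
meets only countably many of its members. -/
def Good {X : Type u} [TopologicalSpace X] (f : X → Pt) : Prop :=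
  ∀ U : Set (Set X), (∀ u ∈ U, IsOpen u) → ⋃₀ U = Set.univ →
    ∃ V : Set (Set X), (∀ v ∈ V, IsOpen v ∧ ∃ u ∈ U, v ⊆ u) ∧ ⋃₀ V = Set.univ ∧
      ∀ (p : Tr) (s : List I) (hs : s ∈ p.c) (m : List Bool),
        {v | v ∈ V ∧ (v ∩ f ⁻¹' {Pt.iso p s hs m}).Nonempty}.Countable

variable {X : Type u} [TopologicalSpace X]

/-- The propagation step. -/
lemma step (f : X → Pt) (hf : Continuous f) (hopen : IsOpenMap f) (hgood : Good f)
    (E : ℕ → Set X) (hE : ∀ n, IsClosed (E n)) (p : Tr) (s : List I) (hs : s ∈ p.c)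
    (hs' : s = [] ∨ s.tail ∈ p.c)
    (h : ∀ x, Pt.nd p (x :: s) (Or.inr hs) ∈ f '' (⋃ n, E n)) :
    Pt.nd p s hs' ∈ f '' (⋃ n, E n) := by
  by_contra hn
  choose ξ hξ hfξ using h
  have hξ' : ∀ x, ∃ n, ξ x ∈ E n := fun x => Set.mem_iUnion.1 (hξ x)
  choose ν hν using hξ'
  let O : Set Pt := (K p)ᶜ ∪ (N s)ᶜ ∪ {z : Pt | ∃ p s h m, z = Pt.iso p s h m}
  have hO : IsOpen O :=
    ((K_clopen p).compl.isOpen.union (N_clopen s).compl.isOpen).union isOpen_isos
  have heO : ∀ x, Pt.nd p (x :: s) (Or.inr hs) ∉ O := by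
    rintro x ((h1 | h1) | ⟨_, _, _, _, h1⟩)
    · exact h1 rfl
    · exact h1 (List.suffix_cons x s)
    · exact absurd h1 (by simp)
  let u : Option I → Set X := fun i => match i with
    | none => f ⁻¹' O
    | some x => f ⁻¹' (N (x :: s))
  have huo : ∀ i, IsOpen (u i) := by
    intro i
    cases i with
    | none => exact hO.preimage hf
    | some x => exact (N_clopen _).isOpen.preimage hf
  have hcov : ∀ n, E n ⊆ ⋃ i, u i := by
    intro n x hx
    have hne : f x ≠ Pt.nd p s hs' := by
      intro he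
      exact hn ⟨x, Set.mem_iUnion.2 ⟨n, hx⟩, he⟩
    by_cases hxO : f x ∈ O
    · exact Set.mem_iUnion.2 ⟨none, hxO⟩
    · have h1 : f x ∈ K p := by
        by_contra hc
        exact hxO (Or.inl (Or.inl hc))
      have h2 : f x ∈ N s := by
        by_contra hc
        exact hxO (Or.inl (Or.inr hc))
      have h3 : ¬ ∃ p s h m, f x = Pt.iso p s h m := fun hc => hxO (Or.inr hc)
      have h4 : ∃ y, f x ∈ N (y :: s) := by
        generalize f x = z at hne h1 h2 h3
        cases z with
        | br b => exact absurd h1 id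
        | iso q t ht m => exact absurd ⟨q, t, ht, m, rfl⟩ h3
        | nd q t ht =>
          have hqp : q = p := h1
          subst hqp
          rw [nd_mem_N] at h2
          obtain ⟨l, hl⟩ := h2
          rcases List.eq_nil_or_concat l with rfl | ⟨l', y, rfl⟩
          · exfalso
            apply hne
            have : s = t := by simpa using hl
            subst this
            rfl
          · refine ⟨y, l', ?_⟩
            rw [← hl]
            simp
      obtain ⟨y, hy⟩ := h4
      exact Set.mem_iUnion.2 ⟨some y, hy⟩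
  have href := fun n => hgood (insert (E n)ᶜ (range u)) (by
    intro w hw
    rcases hw with rfl | ⟨i, rfl⟩
    · exact (hE n).isOpen_compl
    · exact huo i) (by
    rw [eq_univ_iff_forall]
    intro x
    by_cases hx : x ∈ E n
    · obtain ⟨i, hi⟩ := mem_iUnion.1 (hcov n hx)
      exact ⟨u i, Or.inr ⟨i, rfl⟩, hi⟩
    · exact ⟨(E n)ᶜ, Or.inl rfl, hx⟩)
  choose V hV1 hV2 hV3 using href
  have hmem : ∀ x, ∃ v, v ∈ V (ν x) ∧ ξ x ∈ v ∧ v ⊆ f ⁻¹' (N (x :: s)) := by
    intro x
    have h0 : ξ x ∈ ⋃₀ V (ν x) := by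
      rw [hV2]
      exact mem_univ _
    obtain ⟨v, hv, hxv⟩ := h0
    obtain ⟨-, w, hw, hvw⟩ := hV1 (ν x) v hv
    refine ⟨v, hv, hxv, ?_⟩
    rcases hw with rfl | ⟨i, rfl⟩
    · exact absurd (hν x) (hvw hxv)
    · cases i with
      | none =>
        have h2 : f (ξ x) ∈ O := hvw hxv
        rw [hfξ] at h2
        exact absurd h2 (heO x)
      | some y =>
        have h2 : f (ξ x) ∈ N (y :: s) := hvw hxv
        rw [hfξ, nd_mem_N] at h2
        have h3 : y :: s = x :: s := h2.eq_of_length (by simp)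
        rw [← h3]
        exact hvw
  choose v hv1 hv2 hv3 using hmem
  have hm : ∀ x, ∃ m, Pt.iso p s hs m ∈ f '' (v x) := by
    intro x
    apply exists_iso p s hs x _ (hopen _ (hV1 _ _ (hv1 x)).1)
    exact ⟨ξ x, hv2 x, hfξ x⟩
  choose μ hμ using hm
  obtain ⟨⟨n, m⟩, hnm⟩ : ∃ c : ℕ × List Bool, ¬ {x : I | (ν x, μ x) = c}.Countable := by
    by_contra hc
    push Not at hc
    have : (Set.univ : Set I).Countable := by
      have h1 : (Set.univ : Set I) = ⋃ c : ℕ × List Bool, {x : I | (ν x, μ x) = c} := by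
        ext x
        simp
      rw [h1]
      exact Set.countable_iUnion fun c => hc c
    have h2 := uncountable_I
    exact Set.not_countable_univ this
  apply hnm
  have hinj : Set.InjOn v {x : I | (ν x, μ x) = (n, m)} := by
    intro x _ y _ hxy
    have h1 : f (ξ y) ∈ N (x :: s) := hv3 x (by rw [hxy]; exact hv2 y)
    rw [hfξ, nd_mem_N] at h1
    have h3 : x :: s = y :: s := h1.eq_of_length (by simp)
    rw [List.cons.injEq] at h3
    exact h3.1
  refine Set.countable_of_injective_of_countable_image hinj ((hV3 n p s hs m).mono ?_)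
  rintro _ ⟨x, hx, rfl⟩
  rw [Set.mem_ofPred_eq, Prod.mk.injEq] at hx
  obtain ⟨h1, h2⟩ := hx
  obtain ⟨w, hw, hfw⟩ := hμ x
  rw [h2] at hfw
  refine ⟨?_, w, hw, hfw⟩
  rw [← h1]
  exact hv1 x

/-- The space `Pt` is not the image of a normal space under an open continuous map `f` with the
property `Good f`. -/
lemma not_image [NormalSpace X] (f : X → Pt) (hf : Continuous f) (hsurj : Function.Surjective f)
    (hopen : IsOpenMap f) (hgood : Good f) : False := by
  have hd : Disjoint (f ⁻¹' (Set.range Pt.br))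
      (f ⁻¹' {z : Pt | ∃ p, z = Pt.nd p [] (Or.inl rfl)}) := by
    rw [Set.disjoint_left]
    rintro x ⟨a, ha⟩ ⟨p, hp⟩
    rw [hp] at ha
    exact absurd ha (by simp)
  obtain ⟨g, hg0, hg1, -⟩ := exists_continuous_zero_one_of_isClosed
    (isClosed_br.preimage hf) (isClosed_roots.preimage hf) hd
  let E : ℕ → Set X := fun n => {x | g x ≤ 1 - 1 / ((n : ℝ) + 1)}
  have hE : ∀ n, IsClosed (E n) := fun n => isClosed_le g.continuous continuous_const
  have hG : (⋃ n, E n) = {x | g x < 1} := by
    ext x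
    simp only [Set.mem_iUnion, Set.mem_ofPred_eq, E]
    constructor
    · rintro ⟨n, hn⟩
      have : (0 : ℝ) < 1 / ((n : ℝ) + 1) := by positivity
      linarith
    · intro h
      obtain ⟨n, hn⟩ := exists_nat_one_div_lt (show (0 : ℝ) < 1 - g x by linarith)
      exact ⟨n, by linarith⟩
  have hGo : IsOpen (⋃ n, E n) := by
    rw [hG]
    exact isOpen_lt g.continuous continuous_const
  have hW : IsOpen (f '' (⋃ n, E n)) := hopen _ hGo
  have hbr : ∀ a, Pt.br a ∈ f '' (⋃ n, E n) := by
    intro a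
    obtain ⟨x, hx⟩ := hsurj (Pt.br a)
    refine ⟨x, ?_, hx⟩
    rw [hG]
    have : g x = 0 := hg0 (show x ∈ f ⁻¹' (Set.range Pt.br) from ⟨a, hx.symm⟩)
    rw [Set.mem_ofPred_eq, this]
    norm_num
  have hroot : ∀ p, Pt.nd p [] (Or.inl rfl) ∉ f '' (⋃ n, E n) := by
    rintro p ⟨x, hx, hfx⟩
    rw [hG] at hx
    have : g x = 1 := hg1 (show x ∈ f ⁻¹' {z : Pt | ∃ p, z = Pt.nd p [] (Or.inl rfl)} from
      ⟨p, hfx⟩)
    rw [Set.mem_ofPred_eq, this] at hx
    exact lt_irrefl _ hx
  let p : Tr :=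
    { c := {t | ¬ N t ⊆ f '' (⋃ n, E n)}
      down := fun x s h h' => h ((N_anti (List.suffix_cons x s)).trans h')
      wf := by
        intro a
        obtain ⟨k, hk⟩ := nhd_br _ hW a (hbr a)
        exact ⟨k, fun h => h hk⟩ }
  have := p.bar (fun s => ∀ h : s = [] ∨ s.tail ∈ p.c, Pt.nd p s h ∈ f '' (⋃ n, E n)) ?_ ?_
  · exact hroot p (this (Or.inl rfl))
  · intro s hs h
    have : N s ⊆ f '' (⋃ n, E n) := by
      by_contra hc
      exact hs hc
    exact this (List.suffix_refl s)
  · intro s hs ih h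
    exact step f hf hopen hgood E hE p s hs h fun x => ih x (Or.inr hs)

lemma isOpen_iso (p : Tr) (s : List I) (hs : s ∈ p.c) (m : List Bool) :
    IsOpen ({Pt.iso p s hs m} : Set Pt) := by
  have : ({Pt.iso p s hs m} : Set Pt) = Q p s m := by
    ext z
    constructor
    · intro h
      exact ⟨hs, h⟩
    · rintro ⟨_, h⟩
      exact h
  rw [this]
  exact (Q_clopen p s m).isOpen

lemma good_of_paraLindelof (f : X → Pt) (hX : ParaLindelof X)
    (hfib : ∀ y : Pt, IsOpen ({y} : Set Pt) → IsLindelof (f ⁻¹' {y})) : Good f := by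
  intro U hU hc
  obtain ⟨V, hV1, hV2, hV3⟩ := hX U hU hc
  refine ⟨V, hV1, hV2, fun p s hs m => ?_⟩
  have hL := hfib _ (isOpen_iso p s hs m)
  choose W hW hWc using hV3
  obtain ⟨t, htc, -, hts⟩ := hL.elim_nhds_subcover W fun x _ => hW x
  refine (htc.biUnion fun x _ => hWc x).mono ?_
  rintro v ⟨hv, x, hxv, hx⟩
  obtain ⟨y, hy, hxy⟩ := mem_iUnion₂.1 (hts hx)
  exact mem_biUnion hy ⟨hv, x, hxv, hxy⟩

/-- Paracompact spaces are para-Lindelöf, so the theorem below contains the case of paracompact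
Hausdorff spaces `X` and of maps with Lindelöf (for example compact) fibres. -/
lemma paraLindelof_of_paracompact [ParacompactSpace X] : ParaLindelof X := by
  intro U hU hc
  obtain ⟨β, t, ht1, ht2, ht3, ht4⟩ := ParacompactSpace.locallyFinite_refinement U
    (fun w : U => (w : Set X)) (fun w => hU w w.2) (by rw [← sUnion_eq_iUnion]; exact hc)
  refine ⟨range t, ?_, by rw [sUnion_range]; exact ht2, fun x => ?_⟩
  · rintro _ ⟨b, rfl⟩
    obtain ⟨w, hw⟩ := ht4 b
    exact ⟨ht1 b, w, w.2, hw⟩
  · obtain ⟨W, hW, hfin⟩ := ht3 x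
    refine ⟨W, hW, (hfin.image t).countable.mono ?_⟩
    rintro _ ⟨⟨b, rfl⟩, hb⟩
    exact ⟨b, hb, rfl⟩

lemma good_of_metaLindelof (f : X → Pt) (hX : MetaLindelof X)
    (hfib : ∀ y : Pt, IsOpen ({y} : Set Pt) → TopologicalSpace.IsSeparable (f ⁻¹' {y})) :
    Good f := by
  intro U hU hc
  obtain ⟨V, hV1, hV2, hV3⟩ := hX U hU hc
  refine ⟨V, hV1, hV2, fun p s hs m => ?_⟩
  obtain ⟨c, hcc, hcs⟩ := hfib _ (isOpen_iso p s hs m)
  refine (hcc.biUnion fun x _ => hV3 x).mono ?_
  rintro v ⟨hv, x, hxv, hx⟩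
  obtain ⟨y, hyv, hyc⟩ := mem_closure_iff.1 (hcs hx) v (hV1 v hv).1 hxv
  exact mem_biUnion hyc ⟨hv, hyv⟩

/-- There is a completely regular Hausdorff metacompact space `Y` such that for no open continuous
surjection `f` from a normal space `X` onto `Y` one of the following holds: `X` is para-Lindelöf
and the fibres over the isolated points of `Y` are Lindelöf, or `X` is metalindelöf and the fibres
over the isolated points of `Y` are separable. -/
theorem result : ∃ (Y : Type) (_ : TopologicalSpace Y), T35Space Y ∧ Metacompact Y ∧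
    ∀ (X : Type u) [TopologicalSpace X] [NormalSpace X] (f : X → Y),
      Continuous f → Function.Surjective f → IsOpenMap f →
        ¬ ((ParaLindelof X ∧ ∀ y : Y, IsOpen ({y} : Set Y) → IsLindelof (f ⁻¹' {y})) ∨
          (MetaLindelof X ∧
            ∀ y : Y, IsOpen ({y} : Set Y) → TopologicalSpace.IsSeparable (f ⁻¹' {y}))) := by
  refine ⟨Pt, inferInstance, inferInstance, metacompact_Pt, ?_⟩
  rintro X _ _ f hf hs ho (⟨h1, h2⟩ | ⟨h1, h2⟩)
  · exact not_image f hf hs ho (good_of_paraLindelof f h1 h2)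
  · exact not_image f hf hs ho (good_of_metaLindelof f h1 h2)

end Pool.Agent.Results.MP_a57f84_gt.LindelofFibres
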